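import Mathlib

open Cardinal Ordinal Set

universe u

namespace Pool.Agent.Y564.SU

/-- The partition relation `κ → (η_k; k ∈ Γ)^m`: for every colouring `c` of the `m`-element subsets
of `κ` with colours in `Γ` there are a colour `k` and a subset `H` of `κ` of order type `η k` all of
whose `m`-element subsets have colour `k`. -/
def Arrow (κ : Cardinal.{u}) {Γ : Type u} (η : Γ → Ordinal.{u}) (m : ℕ) : Prop :=
  ∀ c : Finset κ.ord.ToType → Γ, ∃ (k : Γ) (H : Set κ.ord.ToType),
    Ordinal.type ((· < ·) : H → H → Prop) = η k ∧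
      ∀ a : Finset κ.ord.ToType, (a : Set κ.ord.ToType) ⊆ H → a.card = m → c a = k

/-- Below every point of the initial ordinal of a successor cardinal there is a map into the initial
ordinal of the cardinal which is injective on the initial segment. -/
theorem exists_inj (κ : Cardinal.{u}) (hκ : ℵ₀ ≤ κ) (ζ : (Order.succ κ).ord.ToType) :
    ∃ e : (Order.succ κ).ord.ToType → κ.ord.ToType, InjOn e (Iio ζ) := by
  classical
  have h1 : #(Iio ζ) ≤ κ := by
    have h2 : #(Iio ζ) < Order.succ κ := by
      simpa using Cardinal.mk_Iio_lt ζ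
    exact Order.lt_succ_iff.mp h2
  have h3 : κ = #(κ.ord.ToType) := by simp
  have h4 := h1.trans h3.le
  obtain ⟨f⟩ := h4
  have hne : Nonempty κ.ord.ToType := by
    rw [nonempty_toType_iff]
    intro h
    have : κ = 0 := by simpa using h
    rw [this] at hκ
    exact absurd hκ (not_le.mpr aleph0_pos)
  obtain ⟨y0⟩ := hne
  refine ⟨fun x => if h : x < ζ then f ⟨x, h⟩ else y0, ?_⟩
  intro a ha b hb hab
  have ha' : a < ζ := ha
  have hb' : b < ζ := hb
  simp only [ha', hb', dif_pos] at hab
  have := f.injective hab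
  simpa using this

/-- A set of cardinality `c` in a well order contains a subset of order type `c.ord`. -/
theorem exists_sub (Y : Type u) [LinearOrder Y] [WellFoundedLT Y] (S : Set Y) (c : Cardinal.{u})
    (hS : #S = c) : ∃ K : Set Y, K ⊆ S ∧ Ordinal.type ((· < ·) : K → K → Prop) = c.ord := by
  have h1 : c.ord ≤ Ordinal.type ((· < ·) : S → S → Prop) := by
    rw [Cardinal.ord_le]
    rw [Ordinal.card_type]
    exact hS.ge
  have h3 : Ordinal.type ((· < ·) : c.ord.ToType → c.ord.ToType → Prop) = c.ord := type_toType _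
  have h2 : Ordinal.type ((· < ·) : c.ord.ToType → c.ord.ToType → Prop) ≤
      Ordinal.type ((· < ·) : S → S → Prop) := by
    rw [h3]
    exact h1
  obtain ⟨f⟩ := Ordinal.type_le_iff.mp h2
  refine ⟨range fun x => (f x : Y), ?_, ?_⟩
  · rintro _ ⟨x, rfl⟩
    exact (f x).2
  · refine Eq.trans ?_ h3
    rw [Ordinal.type_eq]
    have hinj : Function.Injective (fun x => (f x : Y)) := by
      intro a b hab
      exact f.injective (Subtype.ext hab)
    refine ⟨RelIso.symm ?_⟩
    refine ⟨Equiv.ofInjective _ hinj, ?_⟩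
    intro a b
    simp only [Equiv.ofInjective_apply]
    exact f.map_rel_iff

/-- A well ordered set whose order type is a successor has a largest element, and below it there are
as many elements as the predecessor has. -/
theorem exists_top (X : Type u) [LinearOrder X] [WellFoundedLT X] (H : Set X) (o : Ordinal.{u})
    (h : Ordinal.type ((· < ·) : H → H → Prop) = Order.succ o) :
    ∃ ζ ∈ H, (∀ x ∈ H, x ≤ ζ) ∧ #(H ∩ Iio ζ : Set X) = o.card := by
  have hlt : o < Ordinal.type ((· < ·) : H → H → Prop) := by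
    rw [h]; exact Order.lt_succ o
  obtain ⟨z, hz⟩ := Ordinal.typein_surj ((· < ·) : H → H → Prop) hlt
  refine ⟨z, z.2, ?_, ?_⟩
  · intro x hx
    have h1 : Ordinal.typein ((· < ·) : H → H → Prop) ⟨x, hx⟩ < Order.succ o := by
      rw [← h]; exact Ordinal.typein_lt_type _ _
    have h2 : Ordinal.typein ((· < ·) : H → H → Prop) ⟨x, hx⟩ ≤ o := Order.lt_succ_iff.mp h1
    rw [← hz] at h2
    have h3 : ¬ (z < (⟨x, hx⟩ : H)) := by
      intro hlt'
      have := (Ordinal.typein_lt_typein ((· < ·) : H → H → Prop)).mpr hlt'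
      exact absurd this (not_lt.mpr h2)
    exact not_lt.mp h3
  · have h5 : ((Ordinal.typein ((· < ·) : H → H → Prop)) z).card = #{y : H // y < z} :=
      Ordinal.card_typein (r := ((· < ·) : H → H → Prop)) z
    rw [hz] at h5
    rw [h5]
    apply Cardinal.mk_congr
    refine ⟨fun x => ⟨⟨x.1, x.2.1⟩, x.2.2⟩, fun x => ⟨x.1.1, x.1.2, x.2⟩, ?_, ?_⟩
    · intro x; rfl
    · intro x; rfl

/-- Stepping up of negative relations to the successor cardinal. -/
theorem step (κ : Cardinal.{u}) (hκ : ℵ₀ ≤ κ) (n : ℕ) (Γ : Type u) (hΓ : Nonempty Γ)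
    (η : Γ → Cardinal.{u}) (h : ¬ Arrow κ (fun k => (η k).ord) n) :
    ¬ Arrow (Order.succ κ) (fun k => Order.succ (η k).ord) (n + 1) := by
  classical
  intro hA
  apply h
  intro f
  choose e he using exists_inj κ hκ
  obtain ⟨k0⟩ := hΓ
  let g : Finset (Order.succ κ).ord.ToType → Γ := fun s =>
    if hs : s.Nonempty then f ((s.erase (s.max' hs)).image (e (s.max' hs))) else k0
  obtain ⟨k, H, hH, hg⟩ := hA g
  obtain ⟨ζ, hζ, hmax, hcard⟩ := exists_top _ H _ hH
  have hcard' : #(H ∩ Iio ζ : Set (Order.succ κ).ord.ToType) = η k := by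
    rw [hcard, Cardinal.card_ord]
  have hinj : InjOn (e ζ) (H ∩ Iio ζ) := (he ζ).mono inter_subset_right
  have himg : #(e ζ '' (H ∩ Iio ζ)) = η k := by
    rw [Cardinal.mk_image_eq_of_injOn _ _ hinj, hcard']
  obtain ⟨K, hKS, hK⟩ := exists_sub _ _ _ himg
  refine ⟨k, K, hK, ?_⟩
  intro a haK ha
  -- preimage of `a`
  have hex : ∀ y ∈ a, ∃ x ∈ H ∩ Iio ζ, e ζ x = y := fun y hy => hKS (haK hy)
  let s : Finset (Order.succ κ).ord.ToType :=
    a.attach.image fun y => (hex y.1 y.2).choose
  have hsub : ∀ x ∈ s, x ∈ H ∩ Iio ζ := by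
    intro x hx
    obtain ⟨y, _, rfl⟩ := Finset.mem_image.mp hx
    exact (hex y.1 y.2).choose_spec.1
  have himage : s.image (e ζ) = a := by
    ext y
    constructor
    · intro hy
      obtain ⟨x, hx, rfl⟩ := Finset.mem_image.mp hy
      obtain ⟨y', _, rfl⟩ := Finset.mem_image.mp hx
      rw [(hex y'.1 y'.2).choose_spec.2]
      exact y'.2
    · intro hy
      refine Finset.mem_image.mpr ⟨(hex y hy).choose, ?_, (hex y hy).choose_spec.2⟩
      exact Finset.mem_image.mpr ⟨⟨y, hy⟩, Finset.mem_attach _ _, rfl⟩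
  have hscard : s.card = n := by
    rw [← ha, ← himage]
    exact (Finset.card_image_of_injOn (hinj.mono fun x hx => hsub x hx)).symm
  have hζs : ζ ∉ s := fun hz => lt_irrefl ζ (mem_Iio.mp (hsub ζ hz).2)
  have hne : (insert ζ s).Nonempty := Finset.insert_nonempty _ _
  have hm : (insert ζ s).max' hne = ζ := by
    apply le_antisymm
    · apply Finset.max'_le
      intro y hy
      rcases Finset.mem_insert.mp hy with rfl | hy
      · exact le_rfl
      · exact (hsub y hy).2.le
    · exact Finset.le_max' _ _ (Finset.mem_insert_self _ _)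
  have hval : g (insert ζ s) = f a := by
    simp only [g, hne, dif_pos]
    rw [hm, Finset.erase_insert hζs, himage]
  rw [← hval]
  apply hg
  · intro x hx
    rcases Finset.mem_insert.mp (Finset.mem_coe.mp hx) with rfl | hx
    · exact hζ
    · exact (hsub x hx).1
  · rw [Finset.card_insert_of_notMem hζs, hscard]

end Pool.Agent.Y564.SU
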